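import Pool.Agent.Helper52K9.RR.Colour

/-!
For every computable graph `R` on the natural numbers and every graph `G` with three vertices there
is a computable `2`-bounded colouring of the copies of `G` in `R` for which no `Σ⁰₄` set of vertices
which induces a Rado graph is a rainbow.
-/

set_option autoImplicit false

open Filter

namespace Pool.Agent.Results.MP_af8b59_lc.NoSigmaFourRainbow

open Pool.Agent.Helper52K9.RR

theorem infinite_of_isRado {R : SimpleGraph ℕ} {X : Set ℕ} (h : IsRado R X) : X.Infinite := by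
  intro hfin
  obtain ⟨z, hz, h1, -⟩ := h hfin.toFinset ∅ (by simp) (by simp) (by simp)
  exact h1 (hfin.mem_toFinset.2 hz)

theorem result (R : SimpleGraph ℕ) (hR : ComputablePred fun p : ℕ × ℕ => R.Adj p.1 p.2)
    (G : SimpleGraph (Fin 3)) :
    ∃ f : ℕ × ℕ × ℕ → ℕ, Computable f ∧
      (∀ c, {t | IsCopy R G t ∧ f t = c}.encard ≤ 2) ∧
      ∀ X : Set ℕ, IsRado R X → IsSigmaFour X →
        ¬ Set.InjOn f {t | IsCopy R G t ∧ t.1 ∈ X ∧ t.2.1 ∈ X ∧ t.2.2 ∈ X} := by
  obtain ⟨hdec, hR⟩ := hR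
  set A : ℕ × ℕ → Bool := fun p => decide (R.Adj p.1 p.2) with hA
  refine ⟨col A, computable_col hR, fun c => ?_, ?_⟩
  · refine (Set.encard_le_encard ?_).trans (col_bound A c)
    intro t ht
    exact ht.2
  · rintro X hX ⟨P, hP, hXP⟩ hinj
    obtain ⟨e, he⟩ := exists_dec hP
    obtain ⟨W, D, hDX, hcap⟩ := capture hXP (infinite_of_isRado hX) e
    obtain ⟨a, b, hab⟩ := exists_pattern G
    obtain ⟨m, y, z, hy, hz, hmy, hyz, ⟨hWm, hem, hDm, hth⟩, hlow, hdiff, hya, hza, hzy⟩ :=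
      exists_pair hX hDX a b
        (fun m y z => W ≤ m ∧ e < m ∧ (∀ x ∈ D, x < m) ∧ ∀ w < W, (th e m y z w ↔ TH P w)) (by
        have h1 := lim_all he W
        have h2 : ∀ᶠ m in atTop, ∀ᶠ y in atTop, ∀ᶠ z in atTop, (W ≤ m ∧ e < m ∧
            (∀ x ∈ D, x < m) ∧ ∀ w < W, (th e m y z w ↔ TH P w)) := by
          filter_upwards [h1, eventually_ge_atTop (max W (max (e + 1) (D.sup id + 1)))] with m h3 h4
          filter_upwards [h3] with y h5
          filter_upwards [h5] with z h6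
          refine ⟨by omega, by omega, fun x hx => ?_, h6⟩
          have : x ≤ D.sup id := Finset.le_sup (f := id) hx
          omega
        obtain ⟨m₀, hm₀⟩ := eventually_atTop.1 h2
        refine ⟨m₀, fun m hm => ?_⟩
        obtain ⟨y₀, hy₀⟩ := eventually_atTop.1 (hm₀ m hm)
        refine ⟨y₀, fun y hy => ?_⟩
        obtain ⟨z₀, hz₀⟩ := eventually_atTop.1 (hy₀ y hy)
        exact ⟨z₀, hz₀⟩)
    have hmt : mt A y z = m := by
      refine mt_eq (fun j hj => ?_) ?_ hmy
      · simp only [hA]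
        exact decide_eq_decide.2 (hlow j hj)
      · simp only [hA]
        intro h
        exact hdiff (decide_eq_decide.1 h)
    obtain ⟨p, hp, hp1, hp2, hne⟩ := hcap m y z hWm hem hth
    have hcopy : ∀ x ∈ D, IsCopy R G (x, y, z) := fun x hx =>
      hab R x y z ((hDm x hx).trans hmy) hyz (by rw [R.adj_comm]; exact hya x hx)
        (by rw [R.adj_comm]; exact hza x hx) (by rw [R.adj_comm]; exact hzy)
    have hcol : col A (p.1, y, z) = col A (p.2, y, z) := by
      simp only [col, hmt]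
      rw [rep_of_mem hp (Or.inl rfl), rep_of_mem hp (Or.inr rfl)]
    have h1 : (p.1, y, z) ∈ {t | IsCopy R G t ∧ t.1 ∈ X ∧ t.2.1 ∈ X ∧ t.2.2 ∈ X} :=
      ⟨hcopy _ hp1, hDX hp1, hy, hz⟩
    have h2 : (p.2, y, z) ∈ {t | IsCopy R G t ∧ t.1 ∈ X ∧ t.2.1 ∈ X ∧ t.2.2 ∈ X} :=
      ⟨hcopy _ hp2, hDX hp2, hy, hz⟩
    exact hne (Prod.ext_iff.1 (hinj h1 h2 hcol)).1

end Pool.Agent.Results.MP_af8b59_lc.NoSigmaFourRainbow
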