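import Pool.Agent.Helper1K9.LT.Fin
import Pool.Agent.Helper1K9.LT.All

/-!
# `RCA₀ + RRT³_k` does not prove the rainbow Ramsey property of the Rado graph for any graph with
three vertices

There is an omega-model of `RCA₀` in which the rainbow Ramsey theorem for triples `RRT³_k` holds for
all `k`, but for every computable Rado graph `R`, every graph `H` with three vertices and every
`k ≥ 2` the rainbow Ramsey property `RRT_k(R, H)` fails.
-/

set_option autoImplicit false

namespace Pool.Agent.Results.MP_af8b59_lc.TriplesDoNotSuffice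

open Pool.Agent.R623.Om Pool.Agent.Helper617.RM Pool.Agent.Helper1K9.LT

theorem result :
    ∃ I : Set (Set ℕ), IsModelRCA0 (omegaModel I) ∧ (∀ k : ℕ, RRT3 (omegaModel I) k) ∧
      (∃ R : SimpleGraph ℕ, ComputablePred (fun p : ℕ × ℕ => R.Adj p.1 p.2) ∧
        IsRadoOn (omegaModel I) Set.univ (fun x y => R.Adj x y)) ∧
      ∀ R : SimpleGraph ℕ, ComputablePred (fun p : ℕ × ℕ => R.Adj p.1 p.2) →
        ∀ H : ℕ → ℕ → Prop, IsGraphOn (omegaModel I) {i | (omegaModel I).lt i (3 : ℕ)} H →
          ∀ k : ℕ, 2 ≤ k → ¬ RRPFor (omegaModel I) (fun x y => R.Adj x y) (3 : ℕ) H k := by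
  obtain ⟨I, -, h⟩ := all
  exact ⟨I, h⟩

end Pool.Agent.Results.MP_af8b59_lc.TriplesDoNotSuffice
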